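import Pool.Agent.helper16.SCV.Spec

/-! # Row scv:INC (MP_ad8ced_nt) -/

set_option autoImplicit false

namespace Pool.Agent.SCV

open Finset ArithmeticFunction MeasureTheory
open Pool.Agent.SCT

private theorem INC_Mt_conj (φ : ℝ → ℝ) (s : ℂ) : Mt φ ((starRingEnd ℂ) s) = (starRingEnd ℂ) (Mt φ s) := by
  unfold Mt
  rw [← integral_conj]
  congr 1
  ext u
  rw [map_mul, Complex.conj_ofReal, ← Complex.exp_conj, map_mul, Complex.conj_ofReal]

private theorem INC_cpow (x : ℕ) (hx : 1 ≤ x) (s : ℂ) :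
    ((x : ℂ) ^ 2) ^ s = Complex.exp (((2 * Real.log x : ℝ) : ℂ) * s) := by
  have h0 : (x : ℂ) ^ 2 ≠ 0 := by
    have : (x : ℂ) ≠ 0 := by exact_mod_cast (by omega : x ≠ 0)
    exact pow_ne_zero 2 this
  rw [Complex.cpow_def_of_ne_zero h0]
  congr 2
  have h1 : (x : ℂ) ^ 2 = (((x : ℝ) ^ 2 : ℝ) : ℂ) := by push_cast; rfl
  rw [h1, ← Complex.ofReal_log (by positivity), Real.log_pow]
  push_cast
  rfl

private theorem INC_F0_neg (g : ℝ → ℝ) (x : ℕ) (hx : 1 ≤ x) (t : ℝ) :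
    F0 g x (-t) = (starRingEnd ℂ) (F0 g x t) := by
  unfold F0
  have h1 : (1 : ℂ) - ((-t : ℝ) : ℂ) * Complex.I = (starRingEnd ℂ) (1 - (t : ℂ) * Complex.I) := by
    rw [map_sub, map_one, map_mul, Complex.conj_ofReal, Complex.conj_I]
    push_cast
    ring
  rw [h1, map_mul, INC_Mt_conj, INC_cpow x hx, INC_cpow x hx, ← Complex.exp_conj, map_mul, Complex.conj_ofReal]

private theorem INC_F0_norm (g : ℝ → ℝ) (x : ℕ) (hx : 1 ≤ x) (t : ℝ) :
    ‖F0 g x t‖ = (x : ℝ) ^ 2 * ‖Mt g (1 - (t : ℂ) * Complex.I)‖ := by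
  unfold F0
  rw [norm_mul, INC_cpow x hx, Complex.norm_exp]
  congr 1
  have h1 : ((((2 * Real.log x : ℝ) : ℂ)) * (1 - (t : ℂ) * Complex.I)).re = 2 * Real.log x := by
    rw [Complex.re_ofReal_mul]
    simp
  rw [h1, two_mul, Real.exp_add, Real.exp_log (by exact_mod_cast hx), pow_two]

/-- the integrand -/
private noncomputable def INC_h (c : ℕ → ℝ) (g w : ℝ → ℝ) (x : ℕ) (η t : ℝ) : ℝ :=
  ‖Mt w (((η * t : ℝ) : ℂ) * Complex.I)‖ * (‖DL g ((x : ℝ) ^ 2) t - F0 g x t‖ * ‖DC c x (2 * t)‖)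

private theorem INC_even (c : ℕ → ℝ) (g w : ℝ → ℝ) (x : ℕ) (hx : 1 ≤ x) (η : ℝ)
    (hφ : ∀ t : ℝ, DC c x (-t) = (starRingEnd ℂ) (DC c x t))
    (hg : ∀ t : ℝ, DL g ((x : ℝ) ^ 2) (-t) = (starRingEnd ℂ) (DL g ((x : ℝ) ^ 2) t)) (t : ℝ) :
    INC_h c g w x η (-t) = INC_h c g w x η t := by
  unfold INC_h
  have h1 : (((η * -t : ℝ) : ℂ)) * Complex.I = (starRingEnd ℂ) (((η * t : ℝ) : ℂ) * Complex.I) := by
    rw [map_mul, Complex.conj_ofReal, Complex.conj_I]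
    push_cast
    ring
  rw [h1, INC_Mt_conj, RCLike.norm_conj, hg, INC_F0_neg g x hx, ← map_sub, RCLike.norm_conj,
    show 2 * -t = -(2 * t) by ring, hφ, RCLike.norm_conj]

private theorem INC_nonneg (c : ℕ → ℝ) (g w : ℝ → ℝ) (x : ℕ) (η t : ℝ) : 0 ≤ INC_h c g w x η t := by
  unfold INC_h
  positivity

private theorem INC_half (c : ℕ → ℝ) (g w : ℝ → ℝ) (x : ℕ) (η : ℝ)
    (he : ∀ t, INC_h c g w x η (-t) = INC_h c g w x η t) :
    ∫ t : ℝ, INC_h c g w x η t = 2 * ∫ t in Set.Ioi (0 : ℝ), INC_h c g w x η t := by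
  rw [← integral_comp_abs]
  congr 1
  ext t
  rcases abs_choice t with h | h
  · rw [h]
  · rw [h, he]

/-- Elementary bounds of the pieces, and the comparison. -/
private theorem INC_bound (h G1 G2 G3 G4 G5 : ℝ → ℝ) (h0 : ∀ t, 0 ≤ h t)
    (i1 : Integrable G1) (i2 : Integrable G2) (i3 : Integrable G3) (i4 : Integrable G4) (i5 : Integrable G5)
    (n1 : ∀ t, 0 ≤ G1 t) (n2 : ∀ t, 0 ≤ G2 t) (n3 : ∀ t, 0 ≤ G3 t) (n4 : ∀ t, 0 ≤ G4 t) (n5 : ∀ t, 0 ≤ G5 t)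
    (hle : ∀ t, 0 < t → h t ≤ G1 t + G2 t + G3 t + G4 t + G5 t) :
    ∫ t in Set.Ioi (0 : ℝ), h t ≤ (∫ t, G1 t) + (∫ t, G2 t) + (∫ t, G3 t) + (∫ t, G4 t) + ∫ t, G5 t := by
  have hi : Integrable (fun t => G1 t + G2 t + G3 t + G4 t + G5 t) := (((i1.add i2).add i3).add i4).add i5
  calc ∫ t in Set.Ioi (0 : ℝ), h t ≤ ∫ t in Set.Ioi (0 : ℝ), (G1 t + G2 t + G3 t + G4 t + G5 t) := by
        apply integral_mono_of_nonneg
        · exact Filter.Eventually.of_forall h0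
        · exact hi.integrableOn
        · filter_upwards [self_mem_ae_restrict measurableSet_Ioi] with t ht
          exact hle t ht
    _ ≤ ∫ t, (G1 t + G2 t + G3 t + G4 t + G5 t) := by
        apply setIntegral_le_integral hi
        exact Filter.Eventually.of_forall fun t => by
          have := n1 t; have := n2 t; have := n3 t; have := n4 t; have := n5 t
          change 0 ≤ G1 t + G2 t + G3 t + G4 t + G5 t
          linarith
    _ = _ := by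
        have e2 : Integrable (fun t => G1 t + G2 t) := i1.add i2
        have e3 : Integrable (fun t => G1 t + G2 t + G3 t) := e2.add i3
        have e4 : Integrable (fun t => G1 t + G2 t + G3 t + G4 t) := e3.add i4
        rw [integral_add e4 i5, integral_add e3 i4, integral_add e2 i3, integral_add i1 i2]

private theorem INC_sq (a : ℝ) (ha : 0 < a) :
    IntegrableOn (fun t : ℝ => t ^ (-2 : ℝ)) (Set.Ioi a) ∧ ∫ t in Set.Ioi a, t ^ (-2 : ℝ) = 1 / a := by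
  refine ⟨integrableOn_Ioi_rpow_of_lt (by norm_num) ha, ?_⟩
  rw [integral_Ioi_rpow_of_lt (by norm_num) ha]
  have h1 : (-2 : ℝ) + 1 = -1 := by norm_num
  rw [h1, Real.rpow_neg_one]
  field_simp

private theorem INC_fixed (c : ℕ → ℝ) (g w : ℝ → ℝ) (x : ℕ) (η T a Cw Cp CF Cg V1 V3 V4 V5 : ℝ) (E : Set ℝ)
    (ha : 0 < a) (hT : 0 < T) (hcg : Continuous (DL g ((x : ℝ) ^ 2))) (hcp : Continuous (DC c x))
    (hE : MeasurableSet E)
    (hCw : ∀ t : ℝ, ‖Mt w (((η * t : ℝ) : ℂ) * Complex.I)‖ ≤ Cw)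
    (hP : ∀ t : ℝ, ‖DC c x (2 * t)‖ ≤ Cp * x)
    (hF : ∀ t : ℝ, 0 < t → ‖F0 g x t‖ ≤ CF * (x : ℝ) ^ 2 * t ^ (-2 : ℝ))
    (hF' : ∀ t : ℝ, ‖F0 g x t‖ ≤ CF * (x : ℝ) ^ 2)
    (hDg : ∀ t : ℝ, ‖DL g ((x : ℝ) ^ 2) t‖ ≤ Cg * (x : ℝ) ^ 2)
    (hPN : ∀ t : ℝ, 0 < t → t ≤ a → ‖DL g ((x : ℝ) ^ 2) t - F0 g x t‖ ≤ V1)
    (hE2 : ∫ t in Set.Icc 0 T \ E, ‖DL g ((x : ℝ) ^ 2) t‖ * ‖DC c x (2 * t)‖ ≤ V3)
    (hE3 : ∫ t in E ∩ Set.Icc a T, ‖DL g ((x : ℝ) ^ 2) t‖ * ‖DC c x (2 * t)‖ ≤ V4)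
    (hMt : ∀ t : ℝ, T < t → ‖Mt w (((η * t : ℝ) : ℂ) * Complex.I)‖ ≤ V5 * t ^ (-2 : ℝ))
    (hCw0 : 0 ≤ Cw) (hCp0 : 0 ≤ Cp) (hCF0 : 0 ≤ CF) (hCg0 : 0 ≤ Cg) (hV1 : 0 ≤ V1) (hV5 : 0 ≤ V5) :
    ∫ t in Set.Ioi (0 : ℝ), INC_h c g w x η t ≤ Cw * V1 * (Cp * x) * a + Cw * V3 + Cw * V4 +
      Cw * (CF * (x : ℝ) ^ 2) * (Cp * x) * (1 / a) + V5 * ((Cg + CF) * (x : ℝ) ^ 2) * (Cp * x) * (1 / T) := by
  have hx0 : (0 : ℝ) ≤ x := Nat.cast_nonneg x
  have hcp2 : Continuous fun t : ℝ => ‖DC c x (2 * t)‖ := (hcp.comp (continuous_const.mul continuous_id)).norm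
  have hcg2 : Continuous fun t : ℝ => ‖DL g ((x : ℝ) ^ 2) t‖ := hcg.norm
  have hmE1 : MeasurableSet (Set.Icc 0 T \ E) := measurableSet_Icc.diff hE
  have hmE2 : MeasurableSet (E ∩ Set.Icc a T) := hE.inter measurableSet_Icc
  -- integrability
  have j1 : IntegrableOn (fun _ : ℝ => Cw * V1 * (Cp * x)) (Set.Ioc 0 a) :=
    integrableOn_const (by simp)
  have j2 : IntegrableOn (fun t : ℝ => Cw * (‖DL g ((x : ℝ) ^ 2) t‖ * ‖DC c x (2 * t)‖)) (Set.Icc 0 T \ E) :=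
    ((continuous_const.mul (hcg2.mul hcp2)).integrableOn_Icc).mono_set Set.sdiff_subset
  have j3 : IntegrableOn (fun t : ℝ => Cw * (‖DL g ((x : ℝ) ^ 2) t‖ * ‖DC c x (2 * t)‖)) (E ∩ Set.Icc a T) :=
    ((continuous_const.mul (hcg2.mul hcp2)).integrableOn_Icc).mono_set Set.inter_subset_right
  have j4 : IntegrableOn (fun t : ℝ => Cw * (CF * (x : ℝ) ^ 2) * (Cp * x) * t ^ (-2 : ℝ)) (Set.Ioi a) :=
    (INC_sq a ha).1.const_mul _
  have j5 : IntegrableOn (fun t : ℝ => V5 * ((Cg + CF) * (x : ℝ) ^ 2) * (Cp * x) * t ^ (-2 : ℝ)) (Set.Ioi T) :=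
    (INC_sq T hT).1.const_mul _
  have hb := INC_bound (INC_h c g w x η)
    ((Set.Ioc 0 a).indicator fun _ : ℝ => Cw * V1 * (Cp * x))
    ((Set.Icc 0 T \ E).indicator fun t : ℝ => Cw * (‖DL g ((x : ℝ) ^ 2) t‖ * ‖DC c x (2 * t)‖))
    ((E ∩ Set.Icc a T).indicator fun t : ℝ => Cw * (‖DL g ((x : ℝ) ^ 2) t‖ * ‖DC c x (2 * t)‖))
    ((Set.Ioi a).indicator fun t : ℝ => Cw * (CF * (x : ℝ) ^ 2) * (Cp * x) * t ^ (-2 : ℝ))
    ((Set.Ioi T).indicator fun t : ℝ => V5 * ((Cg + CF) * (x : ℝ) ^ 2) * (Cp * x) * t ^ (-2 : ℝ))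
    (INC_nonneg c g w x η)
    (j1.integrable_indicator measurableSet_Ioc) (j2.integrable_indicator hmE1)
    (j3.integrable_indicator hmE2) (j4.integrable_indicator measurableSet_Ioi)
    (j5.integrable_indicator measurableSet_Ioi)
    (fun t => Set.indicator_nonneg (fun _ _ => by positivity) t)
    (fun t => Set.indicator_nonneg (fun _ _ => by positivity) t)
    (fun t => Set.indicator_nonneg (fun _ _ => by positivity) t)
    (fun t => Set.indicator_nonneg (fun y hy => by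
      have : (0 : ℝ) < y := ha.trans hy
      positivity) t)
    (fun t => Set.indicator_nonneg (fun y hy => by
      have : (0 : ℝ) < y := hT.trans hy
      positivity) t) ?_
  · refine hb.trans ?_
    rw [integral_indicator measurableSet_Ioc, integral_indicator hmE1, integral_indicator hmE2,
      integral_indicator measurableSet_Ioi, integral_indicator measurableSet_Ioi, setIntegral_const,
      integral_const_mul, integral_const_mul, integral_const_mul, integral_const_mul, (INC_sq a ha).2, (INC_sq T hT).2]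
    have e1 : (volume : Measure ℝ).real (Set.Ioc 0 a) = a := by
      rw [Real.volume_real_Ioc_of_le ha.le, sub_zero]
    rw [e1, smul_eq_mul]
    have k2 := mul_le_mul_of_nonneg_left hE2 hCw0
    have k3 := mul_le_mul_of_nonneg_left hE3 hCw0
    linarith
  · intro t ht
    have n1 : 0 ≤ (Set.Ioc 0 a).indicator (fun _ : ℝ => Cw * V1 * (Cp * x)) t :=
      Set.indicator_nonneg (fun _ _ => by positivity) t
    have n2 : 0 ≤ (Set.Icc 0 T \ E).indicator (fun t : ℝ => Cw * (‖DL g ((x : ℝ) ^ 2) t‖ * ‖DC c x (2 * t)‖)) t :=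
      Set.indicator_nonneg (fun _ _ => by positivity) t
    have n3 : 0 ≤ (E ∩ Set.Icc a T).indicator (fun t : ℝ => Cw * (‖DL g ((x : ℝ) ^ 2) t‖ * ‖DC c x (2 * t)‖)) t :=
      Set.indicator_nonneg (fun _ _ => by positivity) t
    have n4 : 0 ≤ (Set.Ioi a).indicator (fun t : ℝ => Cw * (CF * (x : ℝ) ^ 2) * (Cp * x) * t ^ (-2 : ℝ)) t :=
      Set.indicator_nonneg (fun y hy => by
        have : (0 : ℝ) < y := ha.trans hy
        positivity) t
    have n5 : 0 ≤ (Set.Ioi T).indicator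
        (fun t : ℝ => V5 * ((Cg + CF) * (x : ℝ) ^ 2) * (Cp * x) * t ^ (-2 : ℝ)) t :=
      Set.indicator_nonneg (fun y hy => by
        have : (0 : ℝ) < y := hT.trans hy
        positivity) t
    have hDn : ‖DL g ((x : ℝ) ^ 2) t - F0 g x t‖ ≤ ‖DL g ((x : ℝ) ^ 2) t‖ + ‖F0 g x t‖ := norm_sub_le _ _
    unfold INC_h
    rcases le_or_gt t a with hta | hta
    · have h1 : (Set.Ioc 0 a).indicator (fun _ : ℝ => Cw * V1 * (Cp * x)) t = Cw * V1 * (Cp * x) :=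
        Set.indicator_of_mem (show t ∈ Set.Ioc 0 a from ⟨ht, hta⟩) _
      have h2 : ‖Mt w (((η * t : ℝ) : ℂ) * Complex.I)‖ * (‖DL g ((x : ℝ) ^ 2) t - F0 g x t‖ * ‖DC c x (2 * t)‖) ≤
          Cw * (V1 * (Cp * x)) :=
        mul_le_mul (hCw t) (mul_le_mul (hPN t ht hta) (hP t) (norm_nonneg _) hV1) (by positivity) hCw0
      rw [h1]
      linarith
    · rcases le_or_gt t T with htT | htT
      · have h4 : (Set.Ioi a).indicator (fun t : ℝ => Cw * (CF * (x : ℝ) ^ 2) * (Cp * x) * t ^ (-2 : ℝ)) t =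
            Cw * (CF * (x : ℝ) ^ 2) * (Cp * x) * t ^ (-2 : ℝ) := Set.indicator_of_mem (show t ∈ Set.Ioi a from hta) _
        have hsplit : ‖Mt w (((η * t : ℝ) : ℂ) * Complex.I)‖ *
            (‖DL g ((x : ℝ) ^ 2) t - F0 g x t‖ * ‖DC c x (2 * t)‖) ≤
            Cw * (‖DL g ((x : ℝ) ^ 2) t‖ * ‖DC c x (2 * t)‖) +
              Cw * (CF * (x : ℝ) ^ 2) * (Cp * x) * t ^ (-2 : ℝ) := by
          calc ‖Mt w (((η * t : ℝ) : ℂ) * Complex.I)‖ *
              (‖DL g ((x : ℝ) ^ 2) t - F0 g x t‖ * ‖DC c x (2 * t)‖)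
              ≤ Cw * ((‖DL g ((x : ℝ) ^ 2) t‖ + ‖F0 g x t‖) * ‖DC c x (2 * t)‖) :=
                mul_le_mul (hCw t) (mul_le_mul_of_nonneg_right hDn (norm_nonneg _)) (by positivity) hCw0
            _ = Cw * (‖DL g ((x : ℝ) ^ 2) t‖ * ‖DC c x (2 * t)‖) + Cw * (‖F0 g x t‖ * ‖DC c x (2 * t)‖) := by ring
            _ ≤ Cw * (‖DL g ((x : ℝ) ^ 2) t‖ * ‖DC c x (2 * t)‖) +
                Cw * ((CF * (x : ℝ) ^ 2 * t ^ (-2 : ℝ)) * (Cp * x)) := by
                have h5 : ‖F0 g x t‖ * ‖DC c x (2 * t)‖ ≤ (CF * (x : ℝ) ^ 2 * t ^ (-2 : ℝ)) * (Cp * x) :=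
                  mul_le_mul (hF t ht) (hP t) (norm_nonneg _) (by positivity)
                have h6 := mul_le_mul_of_nonneg_left h5 hCw0
                linarith
            _ = _ := by ring
        by_cases hEt : t ∈ E
        · have h3 : (E ∩ Set.Icc a T).indicator
              (fun t : ℝ => Cw * (‖DL g ((x : ℝ) ^ 2) t‖ * ‖DC c x (2 * t)‖)) t =
              Cw * (‖DL g ((x : ℝ) ^ 2) t‖ * ‖DC c x (2 * t)‖) :=
            Set.indicator_of_mem (show t ∈ E ∩ Set.Icc a T from ⟨hEt, hta.le, htT⟩) _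
          rw [h3, h4]
          linarith
        · have h3 : (Set.Icc 0 T \ E).indicator
              (fun t : ℝ => Cw * (‖DL g ((x : ℝ) ^ 2) t‖ * ‖DC c x (2 * t)‖)) t =
              Cw * (‖DL g ((x : ℝ) ^ 2) t‖ * ‖DC c x (2 * t)‖) :=
            Set.indicator_of_mem (show t ∈ Set.Icc 0 T \ E from ⟨⟨ht.le, htT⟩, hEt⟩) _
          rw [h3, h4]
          linarith
      · have h5 : (Set.Ioi T).indicator
            (fun t : ℝ => V5 * ((Cg + CF) * (x : ℝ) ^ 2) * (Cp * x) * t ^ (-2 : ℝ)) t =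
            V5 * ((Cg + CF) * (x : ℝ) ^ 2) * (Cp * x) * t ^ (-2 : ℝ) :=
          Set.indicator_of_mem (show t ∈ Set.Ioi T from htT) _
        have h6 : ‖Mt w (((η * t : ℝ) : ℂ) * Complex.I)‖ *
            (‖DL g ((x : ℝ) ^ 2) t - F0 g x t‖ * ‖DC c x (2 * t)‖) ≤
            (V5 * t ^ (-2 : ℝ)) * (((Cg + CF) * (x : ℝ) ^ 2) * (Cp * x)) := by
          refine mul_le_mul (hMt t htT) (mul_le_mul ?_ (hP t) (norm_nonneg _) (by positivity)) (by positivity)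
            (by positivity)
          have h7 := hDg t
          have h8 := hF' t
          linarith
        rw [h5]
        linarith

private theorem INC_conj (c : ℕ → ℝ) (x : ℕ) (t : ℝ) : DC c x (-t) = (starRingEnd ℂ) (DC c x t) := by
  unfold DC
  rw [map_sum]
  refine sum_congr rfl fun m _ => ?_
  rw [map_mul, Complex.conj_ofReal, nu_neg]

private theorem INC_cont (c : ℕ → ℝ) (x : ℕ) : Continuous (DC c x) := by
  unfold DC
  exact continuous_finsetSum _ fun m _ => continuous_const.mul (nu_cont m)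

private theorem INC_norm (c : ℕ → ℝ) (hc : ∀ m, |c m| ≤ 1) (x : ℕ) (t : ℝ) : ‖DC c x t‖ ≤ x := by
  unfold DC
  refine (norm_sum_le _ _).trans ?_
  have h1 : ∑ m ∈ Ioc x (2 * x), ‖(c m : ℂ) * nu t m‖ ≤ ∑ m ∈ Ioc x (2 * x), (1 : ℝ) := by
    refine sum_le_sum fun m _ => ?_
    rw [norm_mul, nu_norm, mul_one, Complex.norm_real, Real.norm_eq_abs]
    exact hc m
  refine h1.trans (le_of_eq ?_)
  rw [sum_const, Nat.card_Ioc, nsmul_eq_mul, mul_one]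
  congr 1
  omega

private theorem INC_lim (K1 K2 K3 κF : ℝ) (A : ℕ) (hκF : 0 < κF) :
    ∃ x₀ : ℕ, ∀ x : ℕ, x₀ ≤ x →
      2 * (K1 * (Real.log x ^ (A + 2))⁻¹ + K2 * (x : ℝ) ^ (-κF) + K3 * (x : ℝ) ^ (-(2 / 3 : ℝ))) ≤
        (Real.log x ^ A)⁻¹ := by
  have hlog : ∀ s : ℝ, 0 < s → Filter.Tendsto (fun y : ℝ => Real.log y ^ A * y ^ (-s)) Filter.atTop (nhds 0) := by
    intro s hs
    have h1 := (isLittleO_log_rpow_rpow_atTop (r := (A : ℝ)) (s := s) hs).tendsto_div_nhds_zero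
    refine h1.congr' ?_
    filter_upwards [Filter.eventually_gt_atTop (1 : ℝ)] with y hy
    rw [Real.rpow_natCast, Real.rpow_neg (by linarith)]
    rfl
  have h1 : Filter.Tendsto (fun y : ℝ => 2 * (K1 * ((Real.log y)⁻¹ * (Real.log y)⁻¹) +
      K2 * (Real.log y ^ A * y ^ (-κF)) + K3 * (Real.log y ^ A * y ^ (-(2 / 3 : ℝ)))))
      Filter.atTop (nhds (2 * (K1 * (0 * 0) + K2 * 0 + K3 * 0))) := by
    refine Filter.Tendsto.const_mul _ (((Filter.Tendsto.const_mul _ ?_).add (Filter.Tendsto.const_mul _ ?_)).add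
      (Filter.Tendsto.const_mul _ ?_))
    · exact (tendsto_inv_atTop_zero.comp Real.tendsto_log_atTop).mul (tendsto_inv_atTop_zero.comp Real.tendsto_log_atTop)
    · exact hlog κF hκF
    · exact hlog _ (by norm_num)
  have h2 : 2 * (K1 * (0 * 0) + K2 * 0 + K3 * 0) < (1 : ℝ) := by norm_num
  have h3 := (h1.comp tendsto_natCast_atTop_atTop).eventually_le_const h2
  obtain ⟨x₀, h⟩ := Filter.eventually_atTop.1 h3
  refine ⟨x₀ + 2, fun x hx => ?_⟩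
  have h4 := h x (by omega)
  have hL : 0 < Real.log x := Real.log_pos (by exact_mod_cast (by omega : 1 < x))
  have hLA : 0 < Real.log x ^ A := pow_pos hL A
  simp only [Function.comp_apply] at h4
  rw [← div_le_one (inv_pos.2 hLA), div_inv_eq_mul]
  refine le_trans (le_of_eq ?_) h4
  rw [pow_add]
  field_simp

theorem INC (hFOC : FOC_stmt) (hDEC : DEC_stmt) (hTRV : TRV_stmt) (hPNF : PNF_stmt) (hFAC : FAC_stmt)
    (hNEC : NEC_stmt) : INC_stmt := by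
  intro g w hg hw hsupp A
  obtain ⟨hgneg, hgc, Cg, hCg, hCgb⟩ := hTRV g hg
  obtain ⟨B₀, δ, hδ, hNEC⟩ := hNEC g hg hsupp (A + 2)
  set B₁ : ℕ := max B₀ (A + 3) with hB₁
  have hB0 : B₀ ≤ B₁ := le_max_left _ _
  have hBA : A + 3 ≤ B₁ := le_max_right _ _
  obtain ⟨xN, hN⟩ := hNEC B₁ hB0
  obtain ⟨κF, xF, hκF, hFa⟩ := hFAC g hg δ hδ
  obtain ⟨xP, hP⟩ := hPNF g hg (B₁ + A + 2) B₁
  obtain ⟨Cw, hCw, hCwb⟩ := (hDEC w hw).2 0
  obtain ⟨CF, hCF, hCFb⟩ := (hDEC g hg).2 2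
  -- the exponent
  obtain ⟨m, hm⟩ : ∃ m : ℕ, m = 200000 := ⟨_, rfl⟩
  obtain ⟨Ck, hCk, hCkb⟩ := (hDEC w hw).2 (m + 2)
  obtain ⟨xL, hL⟩ := INC_lim (Cw + Cw + Cw * CF) Cw (32 * Ck * (Cg + CF)) κF A hκF
  obtain ⟨x32, h32⟩ := exists_nat_ge ((32 : ℝ) ^ (20000 : ℝ))
  refine ⟨xN + xF + xP + xL + x32 + 8, fun x hx η hη hη1 c hc => ?_⟩
  have hx1 : 1 ≤ x := by omega
  have hxR : (8 : ℝ) ≤ x := by exact_mod_cast (by omega : 8 ≤ x)
  have hx0 : (0 : ℝ) < x := by linarith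
  have hx1' : (1 : ℝ) ≤ x := by linarith
  set L : ℝ := Real.log x with hLdef
  have hL1 : 1 ≤ L := by
    rw [hLdef, Real.le_log_iff_exp_le hx0]
    have := Real.exp_one_lt_d9
    linarith
  have hL0 : 0 < L := by linarith
  have hη0 : 0 < η := (div_pos (Real.rpow_pos_of_pos hx0 _) (by norm_num)).trans_le hη
  have hηinv : 1 / η ≤ 32 * (x : ℝ) ^ (1323 / 1000 : ℝ) := by
    rw [div_le_iff₀ hη0]
    calc (1 : ℝ) = 32 * (x : ℝ) ^ (1323 / 1000 : ℝ) * ((x : ℝ) ^ (-(1323 / 1000 : ℝ)) / 32) := by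
          rw [mul_div_assoc', mul_assoc, ← Real.rpow_add hx0]
          norm_num
      _ ≤ _ := mul_le_mul_of_nonneg_left hη (by positivity)
  set e : ℝ := 1 / 20000 with hedef
  have he0 : 0 < e := by rw [hedef]; norm_num
  set T : ℝ := (x : ℝ) ^ e / η with hTdef
  have hxe : 1 ≤ (x : ℝ) ^ e := Real.one_le_rpow hx1' he0.le
  have hxe32 : 32 ≤ (x : ℝ) ^ e := by
    have h1 : (32 : ℝ) ^ (20000 : ℝ) ≤ x := h32.trans (by exact_mod_cast (by omega : x32 ≤ x))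
    have h2 := Real.rpow_le_rpow (by positivity) h1 he0.le
    rw [← Real.rpow_mul (by norm_num)] at h2
    have h3 : (20000 : ℝ) * e = 1 := by rw [hedef]; norm_num
    rw [h3, Real.rpow_one] at h2
    exact h2
  have hT1 : 1 ≤ T := by
    rw [hTdef, le_div_iff₀ hη0]
    linarith
  have hT2 : T ≤ (x : ℝ) ^ (13231 / 10000 : ℝ) := by
    calc T = (x : ℝ) ^ e * (1 / η) := by rw [hTdef]; ring
      _ ≤ (x : ℝ) ^ e * (32 * (x : ℝ) ^ (1323 / 1000 : ℝ)) :=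
          mul_le_mul_of_nonneg_left hηinv (by linarith)
      _ ≤ (x : ℝ) ^ e * ((x : ℝ) ^ e * (x : ℝ) ^ (1323 / 1000 : ℝ)) :=
          mul_le_mul_of_nonneg_left (mul_le_mul_of_nonneg_right hxe32 (by positivity)) (by linarith)
      _ = _ := by
          rw [← Real.rpow_add hx0, ← Real.rpow_add hx0]
          congr 1
          rw [hedef]
          norm_num
  set a : ℝ := L ^ B₁ with hadef
  have ha1 : 1 ≤ a := one_le_pow₀ hL1
  have haL : L ^ (A + 2) ≤ a := pow_le_pow_right₀ hL1 (by omega)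
  obtain ⟨E, hEm, hEv, hE2⟩ := hFa x (by omega) T hT1 hT2 c hc
  -- bounds for the transforms
  have hFn : ∀ t : ℝ, ‖F0 g x t‖ * (1 + ‖1 - (t : ℂ) * Complex.I‖) ^ 2 ≤ CF * (x : ℝ) ^ 2 := by
    intro t
    rw [INC_F0_norm g x hx1 t]
    have h1 := hCFb (1 - (t : ℂ) * Complex.I) (by simp)
    have h2 := mul_le_mul_of_nonneg_left h1 (by positivity : (0 : ℝ) ≤ (x : ℝ) ^ 2)
    linarith
  have hFa' : ∀ t : ℝ, ‖F0 g x t‖ ≤ CF * (x : ℝ) ^ 2 := by
    intro t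
    refine le_trans ?_ (hFn t)
    refine le_mul_of_one_le_right (norm_nonneg _) (one_le_pow₀ ?_)
    linarith [norm_nonneg (1 - (t : ℂ) * Complex.I)]
  have hFb' : ∀ t : ℝ, 0 < t → ‖F0 g x t‖ ≤ CF * (x : ℝ) ^ 2 * t ^ (-2 : ℝ) := by
    intro t ht
    have h1 : t ≤ 1 + ‖1 - (t : ℂ) * Complex.I‖ := by
      have h2 := Complex.abs_im_le_norm (1 - (t : ℂ) * Complex.I)
      have h3 : (1 - (t : ℂ) * Complex.I).im = -t := by simp
      rw [h3, abs_neg, abs_of_pos ht] at h2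
      linarith
    have h4 : ‖F0 g x t‖ * t ^ 2 ≤ CF * (x : ℝ) ^ 2 :=
      (mul_le_mul_of_nonneg_left (pow_le_pow_left₀ ht.le h1 2) (norm_nonneg _)).trans (hFn t)
    rw [Real.rpow_neg ht.le, ← div_eq_mul_inv, le_div_iff₀ (Real.rpow_pos_of_pos ht _)]
    have h5 : t ^ (2 : ℝ) = t ^ 2 := by
      rw [← Real.rpow_natCast]
      norm_num
    rw [h5]
    exact h4
  have hre : ∀ t : ℝ, |(((η * t : ℝ) : ℂ) * Complex.I).re| ≤ 2 := by
    intro t
    simp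
  have hCw' : ∀ t : ℝ, ‖Mt w (((η * t : ℝ) : ℂ) * Complex.I)‖ ≤ Cw := by
    intro t
    have := hCwb _ (hre t)
    simpa using this
  set V5 : ℝ := Ck / (((x : ℝ) ^ e) ^ m * η ^ 2) with hV5
  have hMt : ∀ t : ℝ, T < t → ‖Mt w (((η * t : ℝ) : ℂ) * Complex.I)‖ ≤ V5 * t ^ (-2 : ℝ) := by
    intro t ht
    have ht0 : 0 < t := by linarith
    have h1 := hCkb _ (hre t)
    have h2 : ‖((η * t : ℝ) : ℂ) * Complex.I‖ = η * t := by
      rw [norm_mul, Complex.norm_I, mul_one, Complex.norm_real, Real.norm_eq_abs, abs_of_pos (by positivity)]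
    rw [h2] at h1
    have h3 : (x : ℝ) ^ e ≤ η * t := by
      have h4 : η * T = (x : ℝ) ^ e := by
        rw [hTdef]
        field_simp
      rw [← h4]
      exact mul_le_mul_of_nonneg_left ht.le hη0.le
    have h5 : ((x : ℝ) ^ e) ^ m * (η ^ 2 * t ^ 2) ≤ (1 + η * t) ^ (m + 2) := by
      rw [pow_add, ← mul_pow η t 2]
      refine mul_le_mul (pow_le_pow_left₀ (by linarith) (by linarith) m)
        (pow_le_pow_left₀ (by positivity) (by linarith) 2) (by positivity) (by positivity)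
    have h6 : ‖Mt w (((η * t : ℝ) : ℂ) * Complex.I)‖ * (((x : ℝ) ^ e) ^ m * (η ^ 2 * t ^ 2)) ≤ Ck :=
      (mul_le_mul_of_nonneg_left h5 (norm_nonneg _)).trans h1
    have h7 : t ^ (2 : ℝ) = t ^ 2 := by
      rw [← Real.rpow_natCast]
      norm_num
    rw [Real.rpow_neg ht0.le, h7, hV5, ← div_eq_mul_inv, div_div, le_div_iff₀ (by positivity)]
    calc _ = ‖Mt w (((η * t : ℝ) : ℂ) * Complex.I)‖ * (((x : ℝ) ^ e) ^ m * (η ^ 2 * t ^ 2)) := by ring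
      _ ≤ Ck := h6
  have hfix := INC_fixed c g w x η T a Cw 1 CF Cg ((x : ℝ) ^ 2 / L ^ (B₁ + A + 2))
    ((x : ℝ) ^ (3 - κF)) ((x : ℝ) ^ 3 / L ^ (A + 2)) V5 E (by linarith) (by linarith)
    (hgc _ (by positivity)) (INC_cont c x) hEm hCw' (fun t => by
      rw [one_mul]
      exact INC_norm c hc x (2 * t)) hFb' hFa'
    (fun t => hCgb _ t (one_le_pow₀ hx1'))
    (fun t ht hta => hP x (by omega) t (by rw [abs_of_pos ht]; exact hta))
    hE2
    (hN x (by omega) c hc (E ∩ Set.Icc a T) (hEm.inter measurableSet_Icc)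
      (fun t ht => ⟨ht.2.1, ht.2.2.trans hT2⟩) ((measure_mono Set.inter_subset_left).trans hEv))
    hMt hCw.le zero_le_one hCF.le hCg.le (by positivity) (by positivity)
  have hhalf := INC_half c g w x η (INC_even c g w x hx1 η (fun t => INC_conj c x t) fun t => hgneg _ t (by positivity))
  have hfou := hFOC g w hg hw c x η hx1 hη0
  have hlim := hL x (by omega)
  -- the five terms
  have hx3 : (0 : ℝ) < (x : ℝ) ^ 3 := by positivity
  have t1 : Cw * ((x : ℝ) ^ 2 / L ^ (B₁ + A + 2)) * (1 * x) * a = Cw * (L ^ (A + 2))⁻¹ * (x : ℝ) ^ 3 := by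
    rw [hadef, add_assoc B₁ A 2, pow_add L B₁ (A + 2)]
    field_simp
  have t2 : Cw * (x : ℝ) ^ (3 - κF) = Cw * (x : ℝ) ^ (-κF) * (x : ℝ) ^ 3 := by
    have : (x : ℝ) ^ (3 - κF) = (x : ℝ) ^ (-κF) * (x : ℝ) ^ 3 := by
      rw [← Real.rpow_natCast, ← Real.rpow_add hx0]
      congr 1
      push_cast
      ring
    rw [this]
    ring
  have t3 : Cw * ((x : ℝ) ^ 3 / L ^ (A + 2)) = Cw * (L ^ (A + 2))⁻¹ * (x : ℝ) ^ 3 := by
    ring
  have t4 : Cw * (CF * (x : ℝ) ^ 2) * (1 * x) * (1 / a) ≤ Cw * CF * (L ^ (A + 2))⁻¹ * (x : ℝ) ^ 3 := by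
    have h1 : 1 / a ≤ (L ^ (A + 2))⁻¹ := by
      rw [← one_div]
      exact one_div_le_one_div_of_le (by positivity) haL
    calc _ ≤ Cw * (CF * (x : ℝ) ^ 2) * (1 * x) * (L ^ (A + 2))⁻¹ := mul_le_mul_of_nonneg_left h1 (by positivity)
      _ = _ := by ring
  have t5 : V5 * ((Cg + CF) * (x : ℝ) ^ 2) * (1 * x) * (1 / T) ≤
      32 * Ck * (Cg + CF) * (x : ℝ) ^ (-(2 / 3 : ℝ)) * (x : ℝ) ^ 3 := by
    have h1 : V5 * (1 / T) = Ck * ((1 / η) * (((x : ℝ) ^ e) ^ (m + 1))⁻¹) := by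
      rw [hV5, hTdef]
      field_simp
      rw [pow_succ, mul_comm]
    have h2 : (1 / η) * (((x : ℝ) ^ e) ^ (m + 1))⁻¹ ≤ 32 * (x : ℝ) ^ (-(2 / 3 : ℝ)) := by
      have h3 : 1 / η ≤ 32 * (x : ℝ) ^ (4 / 3 : ℝ) :=
        hηinv.trans (mul_le_mul_of_nonneg_left (Real.rpow_le_rpow_of_exponent_le hx1' (by norm_num)) (by norm_num))
      have h4 : (((x : ℝ) ^ e) ^ (m + 1))⁻¹ ≤ (x : ℝ) ^ (-2 : ℝ) := by
        rw [← Real.rpow_natCast, ← Real.rpow_mul hx0.le, ← Real.rpow_neg hx0.le]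
        apply Real.rpow_le_rpow_of_exponent_le hx1'
        rw [hm, hedef]
        norm_num
      calc _ ≤ (32 * (x : ℝ) ^ (4 / 3 : ℝ)) * (x : ℝ) ^ (-2 : ℝ) := mul_le_mul h3 h4 (by positivity) (by positivity)
        _ = _ := by
          rw [mul_assoc, ← Real.rpow_add hx0]
          norm_num
    calc V5 * ((Cg + CF) * (x : ℝ) ^ 2) * (1 * x) * (1 / T) =
        (V5 * (1 / T)) * ((Cg + CF) * (x : ℝ) ^ 2 * x) := by ring
      _ = ((1 / η) * (((x : ℝ) ^ e) ^ (m + 1))⁻¹) * (Ck * ((Cg + CF) * (x : ℝ) ^ 2 * x)) := by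
          rw [h1]
          ring
      _ ≤ (32 * (x : ℝ) ^ (-(2 / 3 : ℝ))) * (Ck * ((Cg + CF) * (x : ℝ) ^ 2 * x)) :=
          mul_le_mul_of_nonneg_right h2 (by positivity)
      _ = _ := by ring
  have htot : ∫ t in Set.Ioi (0 : ℝ), INC_h c g w x η t ≤
      ((Cw + Cw + Cw * CF) * (L ^ (A + 2))⁻¹ + Cw * (x : ℝ) ^ (-κF) +
        32 * Ck * (Cg + CF) * (x : ℝ) ^ (-(2 / 3 : ℝ))) * (x : ℝ) ^ 3 := by
    rw [t1, t2, t3] at hfix
    linarith
  have hJ : ∫ t : ℝ, INC_h c g w x η t ≤ (L ^ A)⁻¹ * (x : ℝ) ^ 3 := by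
    rw [hhalf]
    have h1 := mul_le_mul_of_nonneg_right hlim hx3.le
    linarith
  calc |Spc c g w x η - S0c c g w x η| ≤ η * ∫ t : ℝ, INC_h c g w x η t := hfou
    _ ≤ η * ((L ^ A)⁻¹ * (x : ℝ) ^ 3) := mul_le_mul_of_nonneg_left hJ hη0.le
    _ = η * ((x : ℝ) ^ 3 / L ^ A) := by ring

end Pool.Agent.SCV
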